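import Mathlib
import Pool.Agent.KS6_87.MS.RankTwoC

set_option autoImplicit false

/-!
# Maximal cells of finest matroid subdivisions of hypersimplices

The answer to Q1 for every hypersimplex `Δ(k, n)` except the nine with `k, n - k ∈ {3, 4, 5}`:

* if `k ≤ 2` or `n - k ≤ 2`, every maximal cell of every finest matroid subdivision of `Δ(k, n)` is
  the polytope of an indecomposable matroid;
* if `3 ≤ k ≤ n - 3` and `k ≥ 6` or `n - k ≥ 6`, then `Δ(k, n)` has a finest matroid subdivision with
  a maximal cell that is the polytope of a decomposable matroid.

The definitions (matroid polytopes, hypersimplices, faces, matroid subdivisions, finest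
subdivisions, maximal cells, indecomposable matroids) are those of
`Pool/Graph/R_pool_sql_team_seeded_3997aac3/Q145/MS/Defs.lean`.

Idea for the second part: for `n - k ≥ 6` add `k - 3` points `S` and `n - k - 6` further points `T`
in general position to the rigid rank three matroid on nine points of the library. The hyperplanes
`ℓ ∪ S` (`ℓ` a line) form a paving matroid of rank `k` and give a coarse subdivision of
`Δ(k, n)`. In every refinement the face `x(S) = 1`, `x(T) = 0` of the central cell stays
undivided. A maximal cell beyond the wall of the four point line which touches the centre of this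
face becomes, up to parallel elements, a matroid of corank two with at least four coparallel
classes, and such a matroid polytope can be cut. The remaining cases follow by duality.

Idea for the first part, `k = 2`: a rank two matroid with at most three parallel classes is
indecomposable, and a cell with at least four parallel classes can be cut by the hyperplane
`x(P ∪ P') = 1` without cutting any other cell.
-/

namespace Pool.Agent.Results.MP_6a4d09_co.AllButNine

open Set Pool.Agent.Q145.MS

theorem result (k n : ℕ) (hkn : k ≤ n) :
    ((k ≤ 2 ∨ n ≤ k + 2) →
      ∀ (K : Set (Set (Fin n → ℝ))) (C : Set (Fin n → ℝ)), IsFinest (hypersimplex k n) K →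
        IsMaximalCell K C →
          ∃ N : Matroid (Fin n), N.E = univ ∧ matroidPolytope N = C ∧ Indecomposable N) ∧
    ((3 ≤ k ∧ k + 3 ≤ n ∧ (6 ≤ k ∨ k + 6 ≤ n)) →
      ∃ (K : Set (Set (Fin n → ℝ))) (C : Set (Fin n → ℝ)), IsFinest (hypersimplex k n) K ∧
        IsMaximalCell K C ∧ (∃ N : Matroid (Fin n), N.E = univ ∧ matroidPolytope N = C) ∧
          ∀ N : Matroid (Fin n), matroidPolytope N = C → ¬ Indecomposable N) :=
  ⟨fun h => Pool.Agent.KS6_87.MS.pos_all hkn h,
    fun h => Pool.Agent.KS6_87.MS.main' h.1 h.2.1 h.2.2⟩

end Pool.Agent.Results.MP_6a4d09_co.AllButNine
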